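import Pool.Agent.Helper68.RigidFinal

set_option autoImplicit false

namespace Pool.Agent.Results.MP_260507_an.RigidInput

open Pool.Agent.Helper68.RigidInput

/-- The rigid input conjecture: for every network, every admissible ODE `ẋ = f(x)` and every
hyperbolic periodic orbit, any two nodes that are rigidly synchronous or rigidly phase-related have
the same node type and are input isomorphic. -/
theorem result (N : Network) (f : N.State → N.State) (hf : N.Admissible f) (x : ℝ → N.State)
    (T : ℝ) (hx : IsPeriodicOrbit f x T) (hhyp : IsHyperbolic f x T) (c d : N.Node)
    (h : N.RigidlySynchronous f x T c d ∨ ∃ θ : ℝ, N.RigidlyPhaseRelated f x T c d θ) :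
    N.nodeType c = N.nodeType d ∧ N.InputIsomorphic c d :=
  rigid_input hf hx hhyp h

end Pool.Agent.Results.MP_260507_an.RigidInput
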